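import Mathlib
import Pool.Agent.Lib_helper48.SmzDefs
import Pool.Agent.Lib_helper48.SmzMain
import Pool.Agent.Lib_helper48.SmzBorel

set_option autoImplicit false

/-!
# (H) does not imply Borel's Conjecture

The combinatorial theorem (proved in ZFC): if for some width function `w` every bounded product
`∏ b` can be localized by fewer than `𝔤` slaloms of width `w`, then every strong measure zero set
of reals is meager-additive (statement (H)); and if `𝔟 = ℵ₁` then Borel's Conjecture fails.

All hypotheses hold in Miller's rational perfect set model (the countable support iteration of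
length `ω₂` of rational perfect set forcing over a model of CH): there `𝔟 = non(𝓜) = ℵ₁`, every
bounded product is localized by the `ℵ₁` slaloms of an intermediate model (Laver property), and
`𝔤 = ℵ₂` (Blass).  So (H) holds and Borel's Conjecture fails in that model.
-/

namespace Pool.Agent.Results.MP_4b0d2a_lc.HNotBorel

open Cardinal Pool.Agent.Smz

theorem result (w : ℕ → ℕ) (hw : ∀ n, 1 ≤ w n) (hloc : ∀ b : ℕ → ℕ, locNum w b < gNum) :
    StatementH ∧ (bNum = ℵ₁ → ¬ BorelConjecture) :=
  ⟨statementH_of_loc hw hloc, not_borel⟩

end Pool.Agent.Results.MP_4b0d2a_lc.HNotBorel
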