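import Pool.Agent.Lib_helper75.BVM.Ordinals
import Pool.Agent.Lib_helper75.Miller.HHolds
import Pool.Agent.Lib_helper75.Miller.NotBC

/-!
# A model of (H) in which Borel's Conjecture fails

We construct a model of ZFC in which every strong measure zero set of reals is meager-additive, but
in which there is an uncountable strong measure zero set. The model is the rational perfect set
model of Miller. We work with the countable support iteration of Miller's forcing along all the
ordinals of a universe. The conditions are given by families of codes: a code is a map of the
finite sequences of natural numbers that embeds the tree of all finite sequences onto the
splitting nodes of a superperfect tree. The code at a coordinate is a measurable function of the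
smaller coordinates, and the conditions form a monoid with respect to composition, where `H * K`
is stronger than `H`. The model is a quotient (by an ultrafilter) of the Boolean-valued universe
for the regular open algebra of this monoid.

* The main theorem about the iteration (`readable`) says that a sequence of dense open sets can be
  read continuously from the generic point below a suitable condition. It gives that real numbers
  are named by measurable functions, that no dominating reals are added, and the Laver property
  (`laver`) relative to an initial segment of the coordinates.
* The statement (H): let `X` be a strong measure zero set and `M` a closed nowhere dense set with
  hole function `g`. We choose positive reals `ε t` for the finite sets `t`, very quickly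
  decreasing with respect to `g`. Let `d` be the increasing sequence given by the generic real at
  a coordinate `δ` of uncountable cofinality, chosen by closing off. The covers of `X` by intervals of
  length `ε {d 0, ..., d i}` are captured by a slalom from the model at `δ`. Thinning the Miller
  tree at `δ` shows that `X` is contained in a set `U`, coded in the model, such that `U + M` is
  meager (`core`).
* Borel's Conjecture fails: the first `ω₁` coordinates give an unbounded family of size `ℵ₁`
  that increases modulo finite, and hence an uncountable strong measure zero set.
-/

set_option autoImplicit false

namespace Pool.Agent.Results.MP_4b0d2a_lc.MillerModel

open Pool.Agent.BVM Pool.Agent.Miller

/-- There is a model `(M, E)` of ZFC such that, for the field `R` of the real numbers of the model,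
every strong measure zero subset of `R` is meager-additive, but Borel's Conjecture fails. -/
theorem result : ∃ (M : Type 2) (E : M → M → Prop), ModelZFC E ∧
    ∃ R add mul lt o i : M, IsRealField E R add mul lt o i ∧
      StatementH E R add lt o ∧ ¬ BorelConjecture E R add lt o := by
  obtain ⟨U, -⟩ := UF.exists_mem (cone_ne_bot (1 : Cond W0))
  exact ⟨Mod U, Emem U, modelZFC U, cls U (RN W0), cls U (addN W0), cls U (mulN W0),
    cls U (ltN W0), cls U (cN W0 0), cls U (cN W0 1), isRealField U, statementH U,
    not_borelConjecture U⟩

end Pool.Agent.Results.MP_4b0d2a_lc.MillerModel
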